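import Mathlib
import Pool.Agent.Q256.T4.Fin

set_option autoImplicit false

/-!
Quadratic points on root stacks of almost all pairs.
-/

namespace Pool.Agent.Q256.T5

open Finset
open Pool.Agent.Q256
open Pool.Agent.Q256.CI
open Pool.Agent.Q256.T4
open Pool.Agent.Q256.T3 (N1)

/-- every prime outside `S` which divides `m` does so at least `e` times. -/
def Orb (S : Finset ℕ) (e : ℕ) (m : ℤ) : Prop :=
  ∀ p : ℕ, p.Prime → p ∉ S → (p : ℤ) ∣ m → (p : ℤ) ^ e ∣ m

/-- the degree of the sum of the canonical divisor and of the boundary of the root stack of orders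
`m i` (`i ∈ I`). -/
noncomputable def degKD {t : ℕ} (n : ℕ) (dg : Fin t → ℕ) (I : Finset (Fin t)) (m : Fin t → ℕ) : ℝ :=
  ∑ i, (dg i : ℝ) - ∑ i ∈ I, (dg i : ℝ) / m i - (n + 2)

/-- the exceptional systems for root stacks. -/
def BadS {n t : ℕ} (dg : Fin t → ℕ) (S : Finset ℕ) (T : ℕ) (κ : ℝ) :
    Set (Fin t → MvPolynomial (Fin (n + 2)) ℤ) :=
  {F | (∀ i, F i ∈ Box (n + 1) (dg i) T) ∧ ∃ (I B : Finset (Fin t)) (m : Fin t → ℕ)
    (p q : Fin (n + 2) → ℤ) (D : ℤ), (∀ i, 1 ≤ m i) ∧ QPt p q D ∧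
    hgt p q D ≤ 1 / 2 * Real.log T ∧
    (∀ i, i ∉ I → i ∉ B → valD (F i) p q D = 0) ∧ (∀ i ∈ B, valD (F i) p q D ≠ 0) ∧
    (∀ i ∈ I, Orb S (m i) (nval (dg i) (F i) p q D)) ∧
    N1 S 2 (∏ i ∈ B, nval (dg i) (F i) p q D) + 1 / 2 * Real.log |(D : ℝ)| <
      degKD n dg I m * hgt p q D + (t - ∑ i ∈ I, 1 / (m i : ℝ) - κ / 2) * Real.log T -
        ∑ i, Real.log ((n + 1 + dg i).choose (n + 1))}

theorem N1_mul (S : Finset ℕ) (a b : ℤ) (ha : a ≠ 0) (hb : b ≠ 0) :
    N1 S 2 (a * b) ≤ N1 S 2 a + N1 S 2 b := by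
  unfold N1
  rw [← mul_add]
  refine mul_le_mul_of_nonneg_left ?_ (by norm_num)
  rw [Int.natAbs_mul, Nat.primeFactors_mul (Int.natAbs_ne_zero.2 ha) (Int.natAbs_ne_zero.2 hb),
    union_sdiff_distrib]
  rw [← sum_union_inter]
  refine le_add_of_nonneg_right (sum_nonneg (fun p hp => ?_))
  rw [mem_inter, mem_sdiff] at hp
  exact Real.log_nonneg (by exact_mod_cast (Nat.prime_of_mem_primeFactors hp.1.1).one_le)

theorem N1_nonneg (S : Finset ℕ) (a : ℤ) : 0 ≤ N1 S 2 a := by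
  unfold N1
  refine mul_nonneg (by norm_num) (sum_nonneg (fun p hp => ?_))
  rw [mem_sdiff] at hp
  exact Real.log_nonneg (by exact_mod_cast (Nat.prime_of_mem_primeFactors hp.1).one_le)

theorem N1_prod {t : ℕ} (S : Finset ℕ) (J : Finset (Fin t)) (x : Fin t → ℤ)
    (hx : ∀ i ∈ J, x i ≠ 0) : N1 S 2 (∏ i ∈ J, x i) ≤ ∑ i ∈ J, N1 S 2 (x i) := by
  classical
  induction J using Finset.induction_on with
  | empty =>
    rw [prod_empty, sum_empty]
    unfold N1
    simp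
  | insert a J ha ih =>
    rw [prod_insert ha, sum_insert ha]
    have h1 := ih (fun i hi => hx i (mem_insert_of_mem hi))
    have h2 := N1_mul S (x a) (∏ i ∈ J, x i) (hx a (mem_insert_self _ _))
      (prod_ne_zero_iff.2 (fun i hi => hx i (mem_insert_of_mem hi)))
    linarith

theorem N1_orb (S : Finset ℕ) (e : ℕ) (he : 1 ≤ e) (m : ℤ) (hm : m ≠ 0) (ho : Orb S e m) :
    N1 S 2 m ≤ 1 / (e : ℝ) * (1 / 2 * Real.log |(m : ℝ)|) := by
  have her : (0 : ℝ) < e := by exact_mod_cast he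
  have h1 : (∏ p ∈ m.natAbs.primeFactors \ S, (p : ℤ) ^ e) ∣ m := by
    refine Finset.prod_dvd_of_coprime ?_ ?_
    · intro p hp p' hp' hne
      rw [mem_coe, mem_sdiff] at hp hp'
      refine IsCoprime.pow ?_
      rw [Nat.isCoprime_iff_coprime]
      exact (Nat.coprime_primes (Nat.prime_of_mem_primeFactors hp.1)
        (Nat.prime_of_mem_primeFactors hp'.1)).2 hne
    · intro p hp
      rw [mem_sdiff] at hp
      refine ho p (Nat.prime_of_mem_primeFactors hp.1) hp.2 ?_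
      exact Int.natCast_dvd.2 (Nat.dvd_of_mem_primeFactors hp.1)
  rw [prod_pow] at h1
  have hpos : (0 : ℤ) < ∏ p ∈ m.natAbs.primeFactors \ S, (p : ℤ) := by
    refine prod_pos (fun p hp => ?_)
    rw [mem_sdiff] at hp
    exact_mod_cast (Nat.prime_of_mem_primeFactors hp.1).pos
  have h2 : (∏ p ∈ m.natAbs.primeFactors \ S, (p : ℤ)) ^ e ≤ |m| :=
    Int.le_of_dvd (abs_pos.2 hm) ((dvd_abs _ _).2 h1)
  have h3 : ((∏ p ∈ m.natAbs.primeFactors \ S, (p : ℝ))) ^ e ≤ |(m : ℝ)| := by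
    have h5 : (((∏ p ∈ m.natAbs.primeFactors \ S, (p : ℤ)) ^ e : ℤ) : ℝ) ≤ ((|m| : ℤ) : ℝ) := by
      exact_mod_cast h2
    push_cast at h5
    exact h5
  have hposr : (0 : ℝ) < ∏ p ∈ m.natAbs.primeFactors \ S, (p : ℝ) := by
    have h5 : ((0 : ℤ) : ℝ) < ((∏ p ∈ m.natAbs.primeFactors \ S, (p : ℤ) : ℤ) : ℝ) := by
      exact_mod_cast hpos
    push_cast at h5
    exact h5
  have h4 := Real.log_le_log (pow_pos hposr e) h3
  rw [Real.log_pow, Real.log_prod] at h4
  · have h6 : N1 S 2 m = 1 / 2 * ∑ p ∈ m.natAbs.primeFactors \ S, Real.log p := by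
      unfold N1; norm_num
    have h7 : ∑ p ∈ m.natAbs.primeFactors \ S, Real.log p ≤ Real.log |(m : ℝ)| / e := by
      rw [le_div_iff₀ her]; linarith
    rw [h6]
    calc 1 / 2 * ∑ p ∈ m.natAbs.primeFactors \ S, Real.log p ≤ 1 / 2 * (Real.log |(m : ℝ)| / e) :=
          mul_le_mul_of_nonneg_left h7 (by norm_num)
      _ = _ := by ring
  · intro p hp
    rw [mem_sdiff] at hp
    exact_mod_cast (Nat.prime_of_mem_primeFactors hp.1).ne_zero

theorem phi_valD {N : ℕ} (p q : Fin N → ℤ) (D : ℤ) (F : MvPolynomial (Fin N) ℤ) (r : ℂ)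
    (hr : r ^ 2 = D) :
    T3.phi r hr (valD F p q D) = ∑ α ∈ F.support, ((F.coeff α : ℤ) : ℂ) *
      ∏ k, ((p k : ℂ) + q k * r) ^ (α k) := by
  unfold valD
  rw [MvPolynomial.aeval_def, MvPolynomial.eval₂_eq', map_sum]
  refine sum_congr rfl (fun α _ => ?_)
  rw [map_mul, map_prod]
  congr 1
  · simp
  · refine prod_congr rfl (fun k _ => ?_)
    rw [map_pow, T3.phi_apply]

theorem val_bound {n d T : ℕ} (p q : Fin (n + 1) → ℤ) (D : ℤ) (F : MvPolynomial (Fin (n + 1)) ℤ)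
    (hF : F ∈ Box n d T) (r : ℂ) (hr : r ^ 2 = D) :
    ‖T3.phi r hr (valD F p q D)‖ ≤ ((n + d).choose n : ℝ) * T *
      ‖fun k => (p k : ℂ) + q k * r‖ ^ d := by
  rw [phi_valD]
  set z : Fin (n + 1) → ℂ := fun k => (p k : ℂ) + q k * r with hz
  have hsub : F.support ⊆ Finset.finsuppAntidiag (univ : Finset (Fin (n + 1))) d := by
    intro α hα
    rw [mem_anti]
    by_contra h
    exact (MvPolynomial.mem_support_iff.1 hα) (hF.1.coeff_eq_zero h)
  have h1 : ∀ α ∈ F.support, ‖((F.coeff α : ℤ) : ℂ) * ∏ k, (z k) ^ (α k)‖ ≤ T * ‖z‖ ^ d := by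
    intro α hα
    rw [norm_mul, norm_prod]
    have h2 : ‖((F.coeff α : ℤ) : ℂ)‖ ≤ T := by
      rw [Complex.norm_intCast]
      exact_mod_cast hF.2 α
    have h3 : ∏ k, ‖z k ^ α k‖ ≤ ‖z‖ ^ d := by
      have h4 : ∏ k, ‖z k ^ α k‖ ≤ ∏ k, ‖z‖ ^ α k := by
        refine prod_le_prod (fun k _ => norm_nonneg _) (fun k _ => ?_)
        rw [norm_pow]
        exact pow_le_pow_left₀ (norm_nonneg _) (norm_le_pi_norm z k) _
      refine h4.trans (le_of_eq ?_)
      rw [prod_pow_eq_pow_sum]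
      congr 1
      have h5 := (mem_anti (n := n) (d := d) α).1 (hsub hα)
      rw [← h5, Finsupp.degree_eq_sum]
    exact mul_le_mul h2 h3 (prod_nonneg (fun _ _ => norm_nonneg _)) (Nat.cast_nonneg _)
  refine (norm_sum_le_of_le _ h1).trans ?_
  rw [sum_const, nsmul_eq_mul, mul_assoc]
  refine mul_le_mul_of_nonneg_right ?_ (by positivity)
  rw [← card_anti n d]
  exact_mod_cast card_le_card hsub

theorem nval_bound {n d T : ℕ} {p q : Fin (n + 2) → ℤ} {D : ℤ} {L : Fin n → Fin (n + 2) → ℤ}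
    {u v : Fin (n + 2) → ℤ} {a b e f c0 s1 s2 t1 t2 : ℤ}
    (h : Rep p q D L u v a b e f c0 s1 s2 t1 t2) (F : MvPolynomial (Fin (n + 2)) ℤ)
    (hF : F ∈ Box (n + 1) d T) :
    |(nval d F p q D : ℝ)| ≤ (((n + 1 + d).choose (n + 1) : ℝ) * T) ^ 2 * H2 p q D ^ d := by
  have hr : rt D ^ 2 = (D : ℂ) := rt_sq D
  have hr' : (-rt D) ^ 2 = (D : ℂ) := T3.neg_sq' hr
  have hc0 : (0 : ℝ) < c0 := by exact_mod_cast h.cpos
  have h1 := val_bound p q D F hF (rt D) hr
  have h2 := val_bound p q D F hF (-rt D) hr'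
  have h3 := norm_val h d F hF.1
  have h6 : (((valD F p q D).norm : ℤ) : ℂ) =
      T3.phi (rt D) hr (valD F p q D) * T3.phi (-rt D) hr' (valD F p q D) := by
    rw [T3.phi_apply, T3.phi_apply, Zsqrtd.norm_def]
    push_cast
    linear_combination ((valD F p q D).im : ℂ) ^ 2 * hr
  have h7 : |((valD F p q D).norm : ℝ)| ≤ (((n + 1 + d).choose (n + 1) : ℝ) * T) ^ 2 *
      (‖fun k => (p k : ℂ) + q k * rt D‖ * ‖fun k => (p k : ℂ) - q k * rt D‖) ^ d := by
    have h8 : |((valD F p q D).norm : ℝ)| = ‖(((valD F p q D).norm : ℤ) : ℂ)‖ := by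
      rw [Complex.norm_intCast]
    have h9 : (fun k => (p k : ℂ) + q k * (-rt D)) = fun k => (p k : ℂ) - q k * rt D := by
      funext k; ring
    rw [h9] at h2
    rw [h8, h6, norm_mul]
    calc _ ≤ (((n + 1 + d).choose (n + 1) : ℝ) * T * ‖fun k => (p k : ℂ) + q k * rt D‖ ^ d) *
          (((n + 1 + d).choose (n + 1) : ℝ) * T * ‖fun k => (p k : ℂ) - q k * rt D‖ ^ d) :=
          mul_le_mul h1 h2 (norm_nonneg _) (by positivity)
      _ = _ := by rw [mul_pow]; ring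
  rw [h3] at h7
  rw [Pool.Agent.Q296.T4.nval_eq h d F hF.1]
  unfold H2
  rw [h.hc, div_pow, ← mul_div_assoc, le_div_iff₀ (by positivity)]
  refine le_trans (le_of_eq ?_) h7
  push_cast
  rw [abs_mul, abs_pow, abs_of_pos hc0]
  ring

theorem H2_ge {n : ℕ} {p q : Fin (n + 2) → ℤ} {D : ℤ} (hx : QPt p q D) : 1 ≤ H2 p q D := by
  obtain ⟨L, u, v, a, b, e, f, c0, s1, s2, t1, t2, h⟩ := exists_rep p q D hx.sqf hx.ne_one hx.irr
  have hc0 : (0 : ℝ) < c0 := by exact_mod_cast h.cpos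
  obtain ⟨i, j, hij⟩ := hx.irr
  have h1 : ∃ k, nc p q D k k ≠ 0 := by
    by_contra hcon
    push Not at hcon
    have h2 : ∀ k, p k = 0 ∧ q k = 0 := by
      intro k
      have h3 := hcon k
      unfold nc at h3
      rw [if_pos rfl] at h3
      have h4 : q k = 0 := by
        by_contra h5
        exact T3.not_sq hx.sqf hx.ne_one (p k) (q k) h5 (by linarith)
      rw [h4] at h3
      refine ⟨?_, h4⟩
      have : p k ^ 2 = 0 := by linarith
      exact pow_eq_zero_iff (by norm_num) |>.1 this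
    apply hij
    rw [(h2 i).1, (h2 j).1]; ring
  obtain ⟨k, hk⟩ := h1
  have h2 : cont p q D ∣ nc p q D k k := Finset.gcd_dvd (mem_univ (k, k))
  have h3 : c0 ≤ |nc p q D k k| := by
    rw [h.hc] at h2
    exact Int.le_of_dvd (abs_pos.2 hk) ((dvd_abs _ _).2 h2)
  unfold H2
  rw [h.hc, le_div_iff₀ hc0, one_mul]
  have h4 := norm_le_pi_norm (fun k => (p k : ℂ) + (q k : ℂ) * rt D) k
  have h5 := norm_le_pi_norm (fun k => (p k : ℂ) - (q k : ℂ) * rt D) k
  have h6 := mul_le_mul h4 h5 (norm_nonneg _) (norm_nonneg _)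
  refine le_trans ?_ h6
  rw [← norm_mul]
  have h7 : ((p k : ℂ) + (q k : ℂ) * rt D) * ((p k : ℂ) - (q k : ℂ) * rt D) =
      ((nc p q D k k : ℤ) : ℂ) := by
    unfold nc
    rw [if_pos rfl]
    push_cast
    linear_combination -(q k : ℂ) ^ 2 * rt_sq D
  have h8 : (fun k => (p k : ℂ) + (q k : ℂ) * rt D) k * (fun k => (p k : ℂ) - (q k : ℂ) * rt D) k =
      ((nc p q D k k : ℤ) : ℂ) := h7
  rw [h8, Complex.norm_intCast]
  exact_mod_cast h3

theorem badS_sub {n t : ℕ} (dg : Fin t → ℕ) (S : Finset ℕ) (T : ℕ) (κ : ℝ) (hT : 1 ≤ T) :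
    BadS (n := n) dg S T κ ⊆ ⋃ J : Finset (Fin t), Bad (n := n) J dg S T κ := by
  classical
  rintro F ⟨hbox, I, B, m, p, q, D, hm, hx, hh, hz, hnz, ho, hN⟩
  have hTr : (1 : ℝ) ≤ T := by exact_mod_cast hT
  have hT0 : (0 : ℝ) < T := by linarith
  have hL : 0 ≤ Real.log T := Real.log_nonneg hTr
  obtain ⟨L, u, v, a, b, e, f, c0, s1, s2, t1, t2, hrep⟩ := exists_rep p q D hx.sqf hx.ne_one hx.irr
  have hH1 := H2_ge hx
  have hh0 : 0 ≤ hgt p q D := by
    unfold hgt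
    have := Real.log_nonneg hH1
    linarith
  have hnv : ∀ i, valD (F i) p q D ≠ 0 → nval (dg i) (F i) p q D ≠ 0 := by
    intro i hi
    rw [Pool.Agent.Q296.T4.nval_eq hrep _ _ (hbox i).1]
    exact res_ne_zero hrep _ _ (hbox i).1 hi
  set I' : Finset (Fin t) := I.filter (fun i => valD (F i) p q D ≠ 0 ∧ i ∉ B) with hI'
  rw [Set.mem_iUnion]
  refine ⟨I' ∪ B, hbox, p, q, D, hx, hh, ?_, ?_, ?_⟩
  · intro i hi
    rw [mem_union, not_or, hI', mem_filter] at hi
    by_contra hcon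
    by_cases hiI : i ∈ I
    · exact hi.1 ⟨hiI, hcon, hi.2⟩
    · exact hcon (hz i hiI hi.2)
  · intro i hi
    rw [mem_union] at hi
    rcases hi with hi | hi
    · rw [hI', mem_filter] at hi
      exact hi.2.1
    · exact hnz i hi
  · have hdisj : Disjoint I' B := by
      rw [disjoint_left]
      intro i hi hiB
      rw [hI', mem_filter] at hi
      exact hi.2.2 hiB
    have hb1 : ∀ i ∈ B, nval (dg i) (F i) p q D ≠ 0 := fun i hi => hnv i (hnz i hi)
    have hb2 : ∀ i ∈ I', nval (dg i) (F i) p q D ≠ 0 := by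
      intro i hi
      rw [hI', mem_filter] at hi
      exact hnv i hi.2.1
    rw [prod_union hdisj]
    have h1 := N1_mul S (∏ i ∈ I', nval (dg i) (F i) p q D) (∏ i ∈ B, nval (dg i) (F i) p q D)
      (prod_ne_zero_iff.2 hb2) (prod_ne_zero_iff.2 hb1)
    have h2 := N1_prod S I' (fun i => nval (dg i) (F i) p q D) hb2
    have h3 : ∀ i ∈ I', N1 S 2 (nval (dg i) (F i) p q D) ≤
        Real.log ((n + 1 + dg i).choose (n + 1)) + (1 / (m i : ℝ) * Real.log T +
          (dg i : ℝ) / m i * hgt p q D) := by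
      intro i hi
      have hi' := hi
      rw [hI', mem_filter] at hi'
      have hmr : (1 : ℝ) ≤ m i := by exact_mod_cast hm i
      refine (N1_orb S (m i) (hm i) _ (hb2 i hi) (ho i hi'.1)).trans ?_
      have h4 := nval_bound hrep (F i) (hbox i)
      have hNpos : (1 : ℝ) ≤ ((n + 1 + dg i).choose (n + 1) : ℝ) := by
        exact_mod_cast Nat.choose_pos (by omega)
      have h5 : 0 < |(nval (dg i) (F i) p q D : ℝ)| := abs_pos.2 (by exact_mod_cast hb2 i hi)
      have h6 := Real.log_le_log h5 h4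
      rw [Real.log_mul (by positivity) (by positivity), Real.log_pow, Real.log_pow,
        Real.log_mul (by positivity) (by positivity)] at h6
      have h7 : 1 / 2 * Real.log |(nval (dg i) (F i) p q D : ℝ)| ≤
          Real.log ((n + 1 + dg i).choose (n + 1)) + Real.log T + dg i * hgt p q D := by
        unfold hgt
        push_cast at h6
        linarith
      have h8 : 0 ≤ Real.log ((n + 1 + dg i).choose (n + 1)) := Real.log_nonneg hNpos
      have h9 : 1 / (m i : ℝ) ≤ 1 := by rw [div_le_one (by linarith)]; exact hmr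
      have h10 : (0 : ℝ) ≤ 1 / (m i : ℝ) := by positivity
      calc 1 / (m i : ℝ) * (1 / 2 * Real.log |(nval (dg i) (F i) p q D : ℝ)|)
          ≤ 1 / (m i : ℝ) * (Real.log ((n + 1 + dg i).choose (n + 1)) + Real.log T +
            dg i * hgt p q D) := mul_le_mul_of_nonneg_left h7 h10
        _ = 1 / (m i : ℝ) * Real.log ((n + 1 + dg i).choose (n + 1)) + (1 / (m i : ℝ) * Real.log T +
          (dg i : ℝ) / m i * hgt p q D) := by ring
        _ ≤ _ := by
          have := mul_le_mul_of_nonneg_right h9 h8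
          linarith
    have h4 := sum_le_sum h3
    rw [sum_add_distrib, sum_add_distrib, ← sum_mul, ← sum_mul] at h4
    have hIsub : I' ⊆ I := filter_subset _ _
    have h5 : ∑ i ∈ I', 1 / (m i : ℝ) ≤ ∑ i ∈ I, 1 / (m i : ℝ) :=
      sum_le_sum_of_subset_of_nonneg hIsub (fun i _ _ => by positivity)
    have h6 : ∑ i ∈ I', (dg i : ℝ) / m i ≤ ∑ i ∈ I, (dg i : ℝ) / m i :=
      sum_le_sum_of_subset_of_nonneg hIsub (fun i _ _ => by positivity)
    have h7 : ∑ i ∈ I', Real.log ((n + 1 + dg i).choose (n + 1)) ≤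
        ∑ i, Real.log ((n + 1 + dg i).choose (n + 1)) := by
      refine sum_le_sum_of_subset_of_nonneg (subset_univ _) (fun i _ _ => ?_)
      exact Real.log_nonneg (by exact_mod_cast Nat.choose_pos (by omega))
    have h8 := mul_le_mul_of_nonneg_right h5 hL
    have h9 := mul_le_mul_of_nonneg_right h6 hh0
    unfold degKD at hN
    nlinarith

/-- **The bound.** -/
theorem badS_count {n t : ℕ} (ht : t ≤ n) (dg : Fin t → ℕ) (hdg : ∀ i, 1 ≤ dg i) (S : Finset ℕ)
    (η : ℝ) (hη : 0 < η) :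
    ∃ C : ℝ, ∀ (T : ℕ) (κ : ℝ), 1 ≤ T →
      ((BadS (n := n) dg S T κ).ncard : ℝ) ≤
        C * (T : ℝ) ^ (∑ i, ((n + 1 + dg i).choose (n + 1) : ℝ) - κ + η) := by
  classical
  have hC : ∀ J : Finset (Fin t), ∃ C : ℝ, ∀ (T : ℕ) (κ : ℝ), 1 ≤ T →
      ((Bad (n := n) J dg S T κ).ncard : ℝ) ≤
        C * (T : ℝ) ^ (∑ i, ((n + 1 + dg i).choose (n + 1) : ℝ) - κ + η) :=
    fun J => bad_count ht J dg hdg S η hη
  choose C hC using hC
  refine ⟨∑ J, C J, fun T κ hT => ?_⟩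
  have hfin : (⋃ J : Finset (Fin t), Bad (n := n) J dg S T κ).Finite :=
    Set.finite_iUnion (fun J => bad_finite J dg S T κ)
  have h1 := Set.ncard_le_ncard (badS_sub (n := n) dg S T κ hT) hfin
  have h2 : (⋃ J : Finset (Fin t), Bad (n := n) J dg S T κ).ncard ≤
      ∑ J : Finset (Fin t), (Bad (n := n) J dg S T κ).ncard := by
    exact Set.ncard_iUnion_le_of_fintype _
  have h3 : (((BadS (n := n) dg S T κ).ncard : ℕ) : ℝ) ≤
      ∑ J : Finset (Fin t), ((Bad (n := n) J dg S T κ).ncard : ℝ) := by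
    exact_mod_cast h1.trans h2
  refine h3.trans ?_
  rw [sum_mul]
  exact sum_le_sum (fun J _ => hC J T κ hT)

end Pool.Agent.Q256.T5
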